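import Pool.Agent.Lib.TB.B_TCA

/-! The calculus of a field that is parallel for a symmetric connection and killed by its
curvature. -/

open scoped Classical Topology ContDiff ComplexOrder Matrix
open Set Complex Filter

noncomputable section

namespace Pool.Agent.Lib.HL21

open Pool.Agent.Lib.SV (E)
open Pool.Agent.Lib.HS32

variable {n : ℕ} {h X : E n → Mat n} {A : Fin n → E n → Mat n} {z : E n}

/-- The pointwise hypotheses. -/
structure Pt (h X : E n → Mat n) (A : Fin n → E n → Mat n) (w : E n) : Prop where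
  sym : ∀ k i j, A k w i j = A j w i k
  kil : ∀ k p a, (dM k h w - h w * A k w) p a = -(dM a h w - h w * A a w) p k
  hh : (h w).IsHermitian
  hx : (X w).IsHermitian
  p1 : ∀ k, dM k X w = -(A k w * X w)
  p2 : ∀ l, dMb l X w = -(X w * (A l w)ᴴ)
  fl : ∀ k l, dMb l (A k) w * X w = 0

/-- The hypotheses near a point. -/
structure Ok (h X : E n → Mat n) (A : Fin n → E n → Mat n) (z : E n) : Prop where
  sh : ∀ᶠ w in 𝓝 z, SmM h w
  sx : ∀ᶠ w in 𝓝 z, SmM X w
  sa : ∀ᶠ w in 𝓝 z, ∀ k, SmM (A k) w
  pt : ∀ᶠ w in 𝓝 z, Pt h X A w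

theorem Ok.ev (o : Ok h X A z) : ∀ᶠ w in 𝓝 z, Ok h X A w := by
  filter_upwards [o.sh.eventually_nhds, o.sx.eventually_nhds, o.sa.eventually_nhds,
    o.pt.eventually_nhds] with w a b c d using ⟨a, b, c, d⟩

/-- The covariant derivative of the metric. -/
def be (h : E n → Mat n) (A : Fin n → E n → Mat n) (k : Fin n) (w : E n) : Mat n :=
  dM k h w - h w * A k w

/-- Its adjoint. -/
def bb (h : E n → Mat n) (A : Fin n → E n → Mat n) (l : Fin n) (w : E n) : Mat n :=
  dMb l h w - (A l w)ᴴ * h w

/-- The trace function. -/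
def sf (h X : E n → Mat n) (w : E n) : ℂ := (X w * h w).trace

theorem Ok.sbe (o : Ok h X A z) (k : Fin n) : SmM (be h A k) z :=
  (o.sh.self_of_nhds.dM k).sub (o.sh.self_of_nhds.mul (o.sa.self_of_nhds k))

theorem Ok.sbb (o : Ok h X A z) (k : Fin n) : SmM (bb h A k) z :=
  (o.sh.self_of_nhds.dMb k).sub ((o.sa.self_of_nhds k).ct.mul o.sh.self_of_nhds)

theorem Ok.ssf (o : Ok h X A z) : ContDiffAt ℝ ∞ (sf h X) z :=
  (o.sx.self_of_nhds.mul o.sh.self_of_nhds).trace

theorem Ok.dz_tr (o : Ok h X A z) {T : E n → Mat n} (hT : SmM T z) (k : Fin n) :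
    dz k (fun w => (X w * T w).trace) z = (X z * (dM k T z - T z * A k z)).trace := by
  rw [dz_trace (o.sx.self_of_nhds.mul hT), dM_mul o.sx.self_of_nhds hT, o.pt.self_of_nhds.p1,
    Matrix.mul_sub, Matrix.trace_sub, Matrix.trace_add, Matrix.neg_mul, Matrix.trace_neg,
    Matrix.mul_assoc, Matrix.trace_mul_comm (A k z), Matrix.mul_assoc]
  ring

theorem Ok.dzb_tr (o : Ok h X A z) {T : E n → Mat n} (hT : SmM T z) (l : Fin n) :
    dzb l (fun w => (X w * T w).trace) z = (X z * (dMb l T z - (A l z)ᴴ * T z)).trace := by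
  rw [dzb_trace (o.sx.self_of_nhds.mul hT), dMb_mul o.sx.self_of_nhds hT, o.pt.self_of_nhds.p2,
    Matrix.mul_sub, Matrix.trace_sub, Matrix.trace_add, Matrix.neg_mul, Matrix.trace_neg,
    Matrix.mul_assoc]
  ring

theorem Ok.dz_sf (o : Ok h X A z) (j : Fin n) : dz j (sf h X) z = (X z * be h A j z).trace :=
  o.dz_tr o.sh.self_of_nhds j

theorem Ok.dzb_sf (o : Ok h X A z) (j : Fin n) : dzb j (sf h X) z = (X z * bb h A j z).trace :=
  o.dzb_tr o.sh.self_of_nhds j

/-- The curvature of type `(2,0)`. -/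
def rr (A : Fin n → E n → Mat n) (k j : Fin n) (w : E n) : Mat n :=
  dM k (A j) w - dM j (A k) w + (A k w * A j w - A j w * A k w)

theorem Ok.rr_x (o : Ok h X A z) (k j : Fin n) : rr A k j z * X z = 0 := by
  have sx := o.sx.self_of_nhds
  have sa := o.sa.self_of_nhds
  have a := dM_dM sx k j
  rw [dM_congr (o.pt.mono fun w hw => hw.p1 j), dM_congr (o.pt.mono fun w hw => hw.p1 k), dM_neg,
    dM_neg, dM_mul (sa j) sx, dM_mul (sa k) sx, o.pt.self_of_nhds.p1, o.pt.self_of_nhds.p1,
    neg_inj] at a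
  simp only [rr, Matrix.add_mul, Matrix.sub_mul, Matrix.mul_assoc, Matrix.mul_neg] at a ⊢
  rw [eq_sub_of_add_eq a]
  abel

theorem Ok.bianchi (o : Ok h X A z) (j k a m : Fin n) :
    rr A j k z m a + rr A k a z m j + rr A a j z m k = 0 := by
  have d : ∀ i k m j, dM i (A k) z m j = dM i (A j) z m k := fun i k m j =>
    dz_congr (o.pt.mono fun w hw => hw.sym k m j)
  have q : ∀ i k m j, (A i z * A k z) m j = (A i z * A j z) m k := fun i k m j => by
    simp only [Matrix.mul_apply]
    exact Finset.sum_congr rfl fun r _ => by rw [o.pt.self_of_nhds.sym k r j]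
  simp only [rr, Matrix.add_apply, Matrix.sub_apply]
  rw [d j k m a, d k j m a, d a k m j, q j k m a, q k j m a, q a k m j]
  ring

/-- The second covariant derivative of the metric. -/
def nn (h : E n → Mat n) (A : Fin n → E n → Mat n) (k j : Fin n) (w : E n) : Mat n :=
  dM k (be h A j) w - be h A j w * A k w - ∑ m, A k w m j • be h A m w

theorem Ok.nn_anti (o : Ok h X A z) (k j p a : Fin n) : nn h A k j z p a = -nn h A k a z p j := by
  have d : dM k (be h A j) z p a = -dM k (be h A a) z p j := by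
    have e : dz k (fun w => be h A j w p a) z = dz k (fun w => -be h A a w p j) z :=
      dz_congr (o.pt.mono fun w hw => hw.kil j p a)
    rw [dz_neg] at e
    exact e
  have kl : ∀ j p a, be h A j z p a = -be h A a z p j := o.pt.self_of_nhds.kil
  have e1 : (be h A j z * A k z) p a = -∑ m, A k z m a * be h A m z p j := by
    rw [Matrix.mul_apply, ← Finset.sum_neg_distrib]
    exact Finset.sum_congr rfl fun m _ => by rw [kl j p m]; ring
  have e2 : (be h A a z * A k z) p j = -∑ m, A k z m j * be h A m z p a := by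
    rw [Matrix.mul_apply, ← Finset.sum_neg_distrib]
    exact Finset.sum_congr rfl fun m _ => by rw [kl a p m]; ring
  simp only [nn, Matrix.sub_apply, Matrix.sum_apply, Matrix.smul_apply, smul_eq_mul, d, e1, e2]
  ring

theorem Ok.nn_comm (o : Ok h X A z) (k j : Fin n) :
    nn h A k j z - nn h A j k z = -(h z * rr A k j z) := by
  have sh := o.sh.self_of_nhds
  have sa := o.sa.self_of_nhds
  have d : ∀ k j, dM k (be h A j) z = dM k (dM j h) z - (dM k h z * A j z + h z * dM k (A j) z) :=
    fun k j => by rw [← dM_mul sh (sa j)]; exact dM_sub (sh.dM j) (sh.mul (sa j))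
  have s : ∑ m, A k z m j • be h A m z = ∑ m, A j z m k • be h A m z :=
    Finset.sum_congr rfl fun m _ => by rw [o.pt.self_of_nhds.sym k m j]
  rw [nn, nn, d, d, s, dM_dM sh k j]
  simp only [be, rr, Matrix.mul_add, Matrix.mul_sub, Matrix.sub_mul, Matrix.mul_assoc]
  abel

theorem Ok.nn_eq (o : Ok h X A z) (k j p a : Fin n) :
    nn h A k j z p a = -(h z * rr A a j z) p k := by
  have c : ∀ k j a, nn h A k j z p a - nn h A j k z p a = -(h z * rr A k j z) p a :=
    fun k j a => congrFun (congrFun (o.nn_comm k j) p) a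
  have b : (h z * rr A j k z) p a + (h z * rr A k a z) p j + (h z * rr A a j z) p k = 0 := by
    simp only [Matrix.mul_apply, ← Finset.sum_add_distrib, ← mul_add, o.bianchi, mul_zero,
      Finset.sum_const_zero]
  linear_combination (1 / 2) * (o.nn_anti k j p a - c k a j - o.nn_anti a k p j + c a j k +
    o.nn_anti j a p k - c j k a + b)

theorem Ok.x_nn (o : Ok h X A z) (l j : Fin n) : ∑ k, X z k l • nn h A k j z = 0 := by
  ext p a
  have e := congrFun (congrFun (congrArg (h z * ·) (o.rr_x a j)) p) l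
  simp only [← Matrix.mul_assoc, Matrix.mul_zero, Matrix.zero_apply] at e
  rw [Matrix.mul_apply] at e
  simp only [Matrix.sum_apply, Matrix.smul_apply, smul_eq_mul, o.nn_eq, Matrix.zero_apply, mul_neg,
    Finset.sum_neg_distrib, neg_eq_zero]
  rw [← e]
  exact Finset.sum_congr rfl fun k _ => mul_comm _ _

/-- The covariant Hessian of type `(2,0)`. -/
def h2 (f : E n → ℂ) (A : Fin n → E n → Mat n) (k j : Fin n) (w : E n) : ℂ :=
  dz k (dz j f) w - ∑ m, A k w m j * dz m f w

theorem Ok.x_h2 (o : Ok h X A z) (l j : Fin n) : ∑ k, X z k l * h2 (sf h X) A k j z = 0 := by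
  have e : ∀ k, h2 (sf h X) A k j z = (X z * nn h A k j z).trace := fun k => by
    rw [h2, dz_congr (o.ev.mono fun w hw => hw.dz_sf j), o.dz_tr (o.sbe j), nn,
      Matrix.mul_sub (X z) (_ - _), Matrix.trace_sub, Matrix.mul_sum, Matrix.trace_sum]
    simp only [o.dz_sf, Matrix.mul_smul, Matrix.trace_smul, smul_eq_mul]
  have := congrArg (fun T => (X z * T).trace) (o.x_nn l j)
  simpa only [e, Matrix.mul_sum, Matrix.trace_sum, Matrix.mul_smul, Matrix.trace_smul,
    smul_eq_mul, Matrix.mul_zero, Matrix.trace_zero] using this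

/-- The complex Hessian of the trace is parallel along the image of the field. -/
theorem Ok.par (o : Ok h X A z) (l : Fin n) :
    ∑ k, X z k l • (dM k (hess (sf h X)) z - hess (sf h X) z * A k z) = 0 := by
  ext i j
  have sf0 := o.ssf
  have sx := o.sx.self_of_nhds
  have sa := o.sa.self_of_nhds
  have pt := o.pt.self_of_nhds
  have s1 : ∀ k m, ContDiffAt ℝ ∞ (fun w => A k w m j * dz m (sf h X) w) z := fun k m =>
    (sa k m j).mul (cd_dz sf0 m)
  have s2 : ∀ k, ContDiffAt ℝ ∞ (h2 (sf h X) A k j) z := fun k =>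
    (cd_dz (cd_dz sf0 j) k).sub (ContDiffAt.sum fun m _ => s1 k m)
  have d : ∀ k, dzb i (h2 (sf h X) A k j) z =
      (dM k (hess (sf h X)) z - hess (sf h X) z * A k z) i j -
        ∑ m, dMb i (A k) z m j * dz m (sf h X) z := fun k => by
    have e := dzb_sub (j := i) (cd_diff (cd_dz (cd_dz sf0 j) k))
      (cd_diff (ContDiffAt.sum (s := Finset.univ) fun m _ => s1 k m))
    rw [dzb_sum fun m _ => cd_diff (s1 k m), ← dz_dzb (cd_dz sf0 j)] at e
    refine e.trans ?_
    simp only [dzb_mul ((sa k).diff _ j) (cd_diff (cd_dz sf0 _)), Finset.sum_add_distrib,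
      Matrix.sub_apply, Matrix.mul_apply]
    have e1 : ∑ m, A k z m j * dzb i (dz m (sf h X)) z = ∑ m, hess (sf h X) z i m * A k z m j :=
      Finset.sum_congr rfl fun m _ => mul_comm _ _
    rw [e1]
    exact (sub_sub _ _ _).symm.trans (sub_right_comm _ _ _)
  have e0 : dzb i (fun w => ∑ k, X w k l * h2 (sf h X) A k j w) z = 0 := by
    rw [dzb_congr (g := fun _ => 0) (o.ev.mono fun w hw => hw.x_h2 l j), dzb_const]
  rw [dzb_sum (f := fun k w => X w k l * h2 (sf h X) A k j w)
    fun k _ => (sx.diff k l).mul (cd_diff (s2 k))] at e0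
  simp only [dzb_mul (sx.diff _ l) (cd_diff (s2 _)), Finset.sum_add_distrib, d, mul_sub,
    Finset.sum_sub_distrib] at e0
  have e1 : ∑ k, dzb i (fun w => X w k l) z * h2 (sf h X) A k j z = 0 := by
    have : ∀ k, dzb i (fun w => X w k l) z = -∑ r, X z k r * (A i z)ᴴ r l := fun k =>
      congrFun (congrFun (pt.p2 i) k) l
    simp only [this, neg_mul, Finset.sum_neg_distrib, neg_eq_zero, Finset.sum_mul]
    rw [Finset.sum_comm]
    refine Finset.sum_eq_zero fun r _ => ?_
    have := congrArg (· * (A i z)ᴴ r l) (o.x_h2 r j)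
    simp only [Finset.sum_mul, zero_mul] at this
    rw [← this]
    exact Finset.sum_congr rfl fun k _ => by ring
  have e2 : ∑ k, X z k l * ∑ m, dMb i (A k) z m j * dz m (sf h X) z = 0 := by
    simp only [Finset.mul_sum]
    rw [Finset.sum_comm]
    refine Finset.sum_eq_zero fun m _ => ?_
    have := congrArg (· * dz m (sf h X) z) (congrFun (congrFun (pt.fl j i) m) l)
    simp only [Matrix.mul_apply, Finset.sum_mul, Matrix.zero_apply, zero_mul] at this
    rw [← this]
    refine Finset.sum_congr rfl fun k _ => ?_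
    have s : dMb i (A k) z m j = dMb i (A j) z m k := dzb_congr (o.pt.mono fun w hw => hw.sym k m j)
    rw [s]; ring
  rw [e1, e2, zero_add, sub_zero] at e0
  simpa only [Matrix.sum_apply, Matrix.smul_apply, smul_eq_mul, Matrix.zero_apply, Matrix.sub_apply,
    mul_sub, Finset.sum_sub_distrib] using e0

theorem Ok.bb_eq (o : Ok h X A z) (l : Fin n) : bb h A l z = (be h A l z)ᴴ := by
  rw [bb, be, dMb_herm o.sh.self_of_nhds (o.pt.mono fun w hw => hw.hh), Matrix.conjTranspose_sub,
    Matrix.conjTranspose_mul, o.pt.self_of_nhds.hh.eq]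

theorem Ok.bb_anti (o : Ok h X A z) (l p a : Fin n) : bb h A l z p a = -bb h A p z l a := by
  have kl : be h A l z a p = -be h A p z a l := o.pt.self_of_nhds.kil l a p
  rw [o.bb_eq, o.bb_eq, Matrix.conjTranspose_apply, Matrix.conjTranspose_apply, kl, star_neg]

/-- The Laplacian of the metric along the field is the complex Hessian of the trace. -/
theorem Ok.lap (o : Ok h X A z) :
    ∑ k, ∑ l, X z k l • (dMb l (be h A k) z - (A l z)ᴴ * be h A k z) = hess (sf h X) z := by
  ext p a
  have sh := o.sh.self_of_nhds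
  have sa := o.sa.self_of_nhds
  have pt := o.pt.self_of_nhds
  have a1 : ∀ k l, (dMb l (be h A k) z - (A l z)ᴴ * be h A k z) p a =
      -(dMb l (be h A a) z - (A l z)ᴴ * be h A a z) p k := fun k l => by
    have e : dzb l (fun w => be h A k w p a) z = dzb l (fun w => -be h A a w p k) z :=
      dzb_congr (o.pt.mono fun w hw => hw.kil k p a)
    rw [dzb_neg] at e
    have kl : ∀ r, be h A k z r a = -be h A a z r k := fun r => pt.kil k r a
    simp only [Matrix.sub_apply, Matrix.mul_apply, kl, mul_neg, Finset.sum_neg_distrib, dMb_apply, e]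
    ring
  have a2 : ∀ k l, (dM a (bb h A l) z - bb h A l z * A a z) p k =
      -(dM a (bb h A p) z - bb h A p z * A a z) l k := fun k l => by
    have e : dz a (fun w => bb h A l w p k) z = dz a (fun w => -bb h A p w l k) z :=
      dz_congr (o.ev.mono fun w hw => hw.bb_anti l p k)
    rw [dz_neg] at e
    simp only [Matrix.sub_apply, Matrix.mul_apply, o.bb_anti l p, neg_mul, Finset.sum_neg_distrib,
      dM_apply, e]
    ring
  have a3 : ∀ l, dMb l (be h A a) z - (A l z)ᴴ * be h A a z =
      dM a (bb h A l) z - bb h A l z * A a z - h z * dMb l (A a) z + (dMb a (A l) z)ᴴ * h z :=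
    fun l => by
    have d1 : dMb l (be h A a) z = dMb l (dM a h) z - (dMb l h z * A a z + h z * dMb l (A a) z) := by
      rw [← dMb_mul sh (sa a)]; exact dMb_sub (sh.dM a) (sh.mul (sa a))
    have d2 : dM a (bb h A l) z = dM a (dMb l h) z -
        ((dMb a (A l) z)ᴴ * h z + (A l z)ᴴ * dM a h z) := by
      rw [← dM_ct (sa l), ← dM_mul (sa l).ct sh]; exact dM_sub (sh.dMb l) ((sa l).ct.mul sh)
    rw [d1, d2, dM_dMb sh]
    simp only [be, bb, Matrix.mul_sub, Matrix.sub_mul, Matrix.mul_assoc]
    abel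
  have a4 : ∀ l, ∑ k, X z k l * (h z * dMb l (A a) z) p k = 0 := fun l => by
    have e := congrFun (congrFun (congrArg (h z * ·) (pt.fl a l)) p) l
    simp only [← Matrix.mul_assoc, Matrix.mul_zero, Matrix.zero_apply] at e
    rw [Matrix.mul_apply] at e
    rw [← e]
    exact Finset.sum_congr rfl fun k _ => mul_comm _ _
  have a5 : ∀ k, ∑ l, X z k l * ((dMb a (A l) z)ᴴ * h z) p k = 0 := fun k => by
    have e := congrArg (·ᴴ * h z) (pt.fl p a)
    simp only [Matrix.conjTranspose_mul, pt.hx.eq, Matrix.conjTranspose_zero, Matrix.zero_mul,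
      Matrix.mul_assoc] at e
    have e' := congrFun (congrFun e k) k
    rw [Matrix.mul_apply, Matrix.zero_apply] at e'
    rw [← e']
    refine Finset.sum_congr rfl fun l _ => ?_
    simp only [Matrix.mul_apply, Matrix.conjTranspose_apply]
    congr 1
    refine Finset.sum_congr rfl fun r _ => ?_
    have s : dMb a (A l) z r p = dMb a (A p) z r l := dzb_congr (o.pt.mono fun w hw => hw.sym l r p)
    rw [s]
  have a6 : hess (sf h X) z p a = ∑ k, ∑ l, X z k l *
      (dM a (bb h A p) z - bb h A p z * A a z) l k := by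
    change dzb p (dz a (sf h X)) z = _
    rw [← dz_dzb o.ssf, dz_congr (o.ev.mono fun w hw => hw.dzb_sf p), o.dz_tr (o.sbb p)]
    simp only [Matrix.trace, Matrix.diag, Matrix.mul_apply (M := X z)]
  rw [a6]
  simp only [Matrix.sum_apply, Matrix.smul_apply, smul_eq_mul, a1, a3]
  simp only [Matrix.add_apply, Matrix.sub_apply (_ - _), a2, neg_add, neg_sub', neg_neg, mul_add,
    mul_sub, mul_neg, Finset.sum_add_distrib, Finset.sum_sub_distrib, Finset.sum_neg_distrib, a5,
    Finset.sum_const_zero]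
  rw [Finset.sum_comm (f := fun k l => X z k l * (h z * dMb l (A a) z) p k)]
  simp only [a4, Finset.sum_const_zero, neg_zero, sub_zero, add_zero]

end Pool.Agent.Lib.HL21
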